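import Pool.Agent.H34.FQ.All
import Pool.Agent.H1.HFS.GGE
import Pool.Agent.H1.HFS.TRL
import Pool.Agent.H14.HFS.AL3
import Pool.Agent.H17.HFS.AL1
import Pool.Agent.H18.HFS.SPI
import Pool.Agent.H18.HFS.TBL
import Pool.Agent.H20.HFS.PML
import Pool.Agent.H22.HFS.SZ2
import Pool.Agent.H27.HFS.PGH
import Pool.Agent.H27.HFS.POL
import Pool.Agent.H3.HFS.MVL
import Pool.Agent.H30.HFS.PR2
import Pool.Agent.H30.HFS.ZTR
import Pool.Agent.H31.HFS.UNC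
import Pool.Agent.H34.HFS.MNL
import Pool.Agent.H36.HFS.NULL
import Pool.Agent.H36.HFS.SQR
import Pool.Agent.H4.HFS.LOL
import Pool.Agent.H44.HFS.SPL
import Pool.Agent.H46.HFS.CNW
import Pool.Agent.H51.HFS.VRL
import Pool.Agent.H52.HFS.CRL
import Pool.Agent.H52.HFS.FIN
import Pool.Agent.H52.HFS.LPL
import Pool.Agent.H52.HFS.PXL
import Pool.Agent.H59.HFS.DSV
import Pool.Agent.H59.HFS.HPL
import Pool.Agent.H65.HFS.SPC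
import Pool.Agent.H67.HFS.DIL
import Pool.Agent.H67.HFS.PBL
import Pool.Agent.H67.HFS.PKL
import Pool.Agent.H7.HFS.SEL
import Pool.Agent.H75.HFS.AL2
import Pool.Agent.H75.HFS.SML
import Pool.Agent.H75.HFS.ULB
import Pool.Agent.H87.HFS.HCL
import Pool.Agent.H87.HFS.PNL
import Pool.Agent.H87.HFS.UW1

/-!
Assembly of the rows of the board hfs_modules (`MP_63b6b1_nt`).
-/

set_option autoImplicit false

namespace Pool.Agent.H34.FS.All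

open Pool.Agent.H34.FS

theorem x_GGE : T_GGE := Pool.Agent.H1.HFS.pf_GGE

theorem x_GGU : T_GGU := Pool.Agent.H1.HFS.pf_GGU x_GGE

theorem x_VRL : T_VRL := Pool.Agent.H51.HFS.pf_VRL Pool.Agent.H32.RQ.All.x_KPB Pool.Agent.H32.RQ.All.x_KPL Pool.Agent.H32.RQ.All.x_FJB Pool.Agent.H32.RQ.All.x_FJT

theorem x_TRL : T_TRL := Pool.Agent.H1.HFS.TRL.pf_TRL Pool.Agent.H32.RQ.All.x_FJB

theorem x_PKL : T_PKL := Pool.Agent.H67.HFS.pf_PKL Pool.Agent.H32.RQ.All.x_KPB Pool.Agent.H32.RQ.All.x_FJB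

theorem x_PXL : T_PXL := Pool.Agent.H52.HFS.pf_PXL Pool.Agent.H32.RQ.All.x_CNT

theorem x_ZTR : T_ZTR := Pool.Agent.H30.HFS.pf_ZTR

theorem x_UNC : T_UNC := Pool.Agent.H31.HFS.pf_UNC Pool.Agent.H32.RQ.All.x_CNT

theorem x_CNW : T_CNW := Pool.Agent.H46.HFS.pf_CNW Pool.Agent.H32.RQ.All.x_PAI

theorem x_DIL : T_DIL := Pool.Agent.H67.HFS.pf_DIL Pool.Agent.H32.RQ.All.x_FJB

theorem x_PBL : T_PBL := Pool.Agent.H67.HFS.pf_PBL x_PXL x_ZTR x_UNC x_PKL Pool.Agent.H32.RQ.All.x_KPB Pool.Agent.H32.RQ.All.x_FJB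

theorem x_SML : T_SML := Pool.Agent.H75.HFS.pf_SML

theorem x_PR2 : T_PR2 := Pool.Agent.H30.HFS.pf_PR2

theorem x_SEL : T_SEL := Pool.Agent.H7.HFS.pf_SEL x_PBL x_CNW x_DIL x_SML x_PR2 x_ZTR x_PKL Pool.Agent.H34.FQ.All.x_PAV

theorem x_AL2 : T_AL2 := Pool.Agent.H75.HFS.pf_AL2

theorem x_AL3 : T_AL3 := Pool.Agent.H14.HFS.pf_AL3

theorem x_AL1 : T_AL1 := Pool.Agent.H17.HFS.pf_AL1 x_AL2 x_AL3 x_GGE

theorem x_TBL : T_TBL := Pool.Agent.H18.HFS.pf_TBL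

theorem x_NUL : T_NUL := Pool.Agent.H36.HFS.pf_NUL

theorem x_PML : T_PML := Pool.Agent.H20.HFS.pf_PML x_NUL Pool.Agent.H32.RQ.All.x_PUV x_GGE

theorem x_PNL : T_PNL := Pool.Agent.H87.HFS.pf_PNL x_PML x_TBL

theorem x_MVL : T_MVL := Pool.Agent.H3.HFS.pf_MVL x_NUL Pool.Agent.H32.RQ.All.x_QPZ x_GGE

theorem x_LPL : T_LPL := Pool.Agent.H52.HFS.pf_LPL x_PNL x_MVL

theorem x_HCL : T_HCL := Pool.Agent.H87.HFS.pf_HCL Pool.Agent.H32.RQ.All.x_HEN x_GGE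

theorem x_CRL : T_CRL := Pool.Agent.H52.HFS.pf_CRL x_GGE

theorem x_UW1 : T_UW1 := Pool.Agent.H87.HFS.pf_UW1 x_GGE

theorem x_ULB : T_ULB := Pool.Agent.H75.HFS.pf_ULB x_HCL x_CRL x_UW1

theorem x_PGH : T_PGH := Pool.Agent.H27.HFS.pf_PGH

theorem x_LOL : T_LOL := Pool.Agent.H4.HFS.pf_LOL x_PGH x_GGE

theorem x_MNL : T_MNL := Pool.Agent.H34.HFS.pf_MNL x_VRL x_TRL x_SEL x_LOL x_ULB x_GGE

theorem x_HPL : T_HPL := Pool.Agent.H59.HFS.HPL.pf_HPL x_MNL x_AL1 x_TBL x_LPL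

theorem x_SPI : T_SPI := Pool.Agent.H18.HFS.pf_SPI x_GGE

theorem x_SPC : T_SPC := Pool.Agent.H65.HFS.pf_SPC

theorem x_POL : T_POL := Pool.Agent.H27.HFS.pf_POL x_MNL x_AL1 x_SPI x_SPC

theorem x_SQR : T_SQR := Pool.Agent.H36.HFS.pf_SQR

theorem x_DSV : T_DSV := Pool.Agent.H59.HFS.DSV.pf_DSV x_SQR

theorem x_SPL : T_SPL := Pool.Agent.H44.HFS.pf_SPL x_DSV x_GGE

theorem x_SZ2 : T_SZ2 := Pool.Agent.H22.HFS.pf_SZ2

theorem x_FIN : T_FIN := Pool.Agent.H52.HFS.pf_FIN x_SPL x_SZ2 x_POL x_HPL x_TBL x_GGE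

end Pool.Agent.H34.FS.All
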