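import Pool.Agent.H34.FQ.Targets

/-!
# The Hasse principle for almost all intersections of two quadrics with a given hyperplane
# section: definitions

`MP_63b6b1_nt`. A fixed pair `F` of integral quadratic forms in `r` variables, whose zero scheme
is a smooth complete intersection, and a random pair of linear forms `L` in `(c, x)` with
coefficients in `[-A, A]`; the pair of quadratic forms is `F_i (x) + c L_i (c, x)`. `Mon`, `md`,
`nu`, `qf`, `dq`, `jm`, `cm`, `vb`, `mnr`, `Prm`, `gm`, `dm`, `fj`, `tri`, `kap`, `lam`, `PR`, `NP`,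
`Sm` are in `Pool.Agent.H32.RQ`, and `cv` is in `Pool.Agent.H34.FQ`.
-/

set_option autoImplicit false

open Finset Pool.Agent.H32.RQ Pool.Agent.H34.FQ

namespace Pool.Agent.H34.FS

/-! ### The family -/

theorem ne0 {r : ℕ} {p : Mon (r + 1)} (h : p.1.1 ≠ 0) : p.1.2 ≠ 0 := fun h' =>
  h (le_antisymm (h' ▸ p.2) (Fin.zero_le _))

/-- the monomial in the last `r` variables -/
def pm {r : ℕ} (p : Mon (r + 1)) (h : p.1.1 ≠ 0) : Mon r :=
  ⟨(p.1.1.pred h, p.1.2.pred (ne0 h)), by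
    change p.1.1.pred h ≤ p.1.2.pred (ne0 h)
    rw [Fin.pred_le_pred_iff]
    exact p.2⟩

/-- the coefficients of the quadratic form `f (x) + c * l (c, x)` in the variables `(c, x)` -/
def gf {R : Type} [CommRing R] {r : ℕ} (f : Mon r → R) (l : Fin (r + 1) → R) : Mon (r + 1) → R :=
  fun p => if h : p.1.1 = 0 then l p.1.2 else f (pm p h)

/-- the pair of quadratic forms `F_i (x) + c * L_i (c, x)` -/
def gg {R : Type} [CommRing R] {r : ℕ} (F : Fin 2 → Mon r → R) (L : Fin 2 → Fin (r + 1) → R) :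
    Fin 2 → Mon (r + 1) → R := fun i => gf (F i) (L i)

/-- the coefficients of `L` in the ring `R` -/
def cL (R : Type) [CommRing R] {n : ℕ} (L : Fin 2 → Fin n → ℤ) : Fin 2 → Fin n → R :=
  fun i j => (L i j : R)

/-- the pairs of integral linear forms in `r + 1` variables with coefficients in `[-A, A]` -/
noncomputable def bL (r A : ℕ) : Finset (Fin 2 → Fin (r + 1) → ℤ) :=
  Fintype.piFinset fun _ => Fintype.piFinset fun _ => Finset.Icc (-(A : ℤ)) A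

/-- the pair has a nonzero zero over every `p`-adic field -/
def LP {s : ℕ} (c : Fin 2 → Mon s → ℤ) : Prop :=
  ∀ (p : ℕ) [Fact p.Prime], ∃ x : Fin s → ℚ_[p], x ≠ 0 ∧ ∀ i, qf (cm ℚ_[p] c i) x = 0

/-- the pair has a nonzero integral zero -/
def QZ {s : ℕ} (c : Fin 2 → Mon s → ℤ) : Prop :=
  ∃ x : Fin s → ℤ, x ≠ 0 ∧ ∀ i, qf (c i) x = 0

/-- the pair `gg F L` has an integral zero `(c, x)` with `1 ≤ c ≤ K` and
`|x_j| ^ (r - 2) ≤ K A ^ 2` -/
def SZF {r : ℕ} (F : Fin 2 → Mon r → ℤ) (K A : ℕ) (L : Fin 2 → Fin (r + 1) → ℤ) : Prop :=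
  ∃ (c : ℕ) (x : Fin r → ℤ), 1 ≤ c ∧ c ≤ K ∧ (∀ i, qf (gg F L i) (cv (c : ℤ) x) = 0) ∧
    ∀ j, |x j| ^ (r - 2) ≤ K * (A : ℤ) ^ 2

/-! ### Points -/

open Classical in
/-- the vectors `x` of size between `B / K` and `B` with `(c, x)` primitive and `c ∣ F_i (x)` -/
noncomputable def PT {r : ℕ} (F : Fin 2 → Mon r → ℤ) (c K B : ℕ) : Finset (Fin r → ℤ) :=
  (vb r B).filter fun x => Prm (cv (c : ℤ) x) ∧ (∃ i, (B : ℤ) ≤ K * |x i|) ∧
    ∀ i, (c : ℤ) ∣ qf (F i) x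

/-- the value `F_i (x) / c` -/
def tt {r : ℕ} (F : Fin 2 → Mon r → ℤ) (c : ℕ) (i : Fin 2) (x : Fin r → ℤ) : ℤ :=
  qf (F i) x / c

/-- the value `F_i (x) / c + L_i (c, x)` -/
def vi {r : ℕ} (F : Fin 2 → Mon r → ℤ) (c : ℕ) (L : Fin 2 → Fin (r + 1) → ℤ) (i : Fin 2)
    (x : Fin r → ℤ) : ℤ := tt F c i x + ∑ j, L i j * cv (c : ℤ) x j

/-! ### The random model -/

section model

variable (Q : ℕ) [NeZero Q]

/-- the weight of a pair of linear forms -/
noncomputable def wL {n : ℕ} (J : ℕ) (L : Fin 2 → Fin n → ZMod Q) : ℝ := ∏ i, ∏ p, fj Q J (L i p)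

/-- the value `t + l (z)` modulo `Q` -/
def vm {n : ℕ} (z : Fin n → ℤ) (t : ℤ) (l : Fin n → ZMod Q) : ZMod Q :=
  (t : ZMod Q) + ∑ j, l j * (z j : ZMod Q)

/-- the number of zeros in `S` -/
noncomputable def nL {r n : ℕ} (S : Finset (Fin r → ℤ)) (z : (Fin r → ℤ) → Fin n → ℤ)
    (t : Fin 2 → (Fin r → ℤ) → ℤ) (L : Fin 2 → Fin n → ZMod Q) : ℝ :=
  ∑ x ∈ S, if ∀ i, vm Q (z x) (t i x) (L i) = 0 then 1 else 0

/-- the number of local zeros in `S` -/
noncomputable def lL {r n : ℕ} (W T : ℕ) (S : Finset (Fin r → ℤ)) (z : (Fin r → ℤ) → Fin n → ℤ)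
    (t : Fin 2 → (Fin r → ℤ) → ℤ) (L : Fin 2 → Fin n → ZMod Q) : ℝ :=
  ∑ x ∈ S, ∏ i, lam Q W T (vm Q (z x) (t i x) (L i))

/-- the correlation of two vectors at the frequencies `j`, `k` -/
noncomputable def rl {n : ℕ} (J : ℕ) (z z' : Fin n → ℤ) (j k : ZMod Q) : ℝ :=
  ∏ p : Fin n, tri Q J (j * (z p : ZMod Q) + k * (z' p : ZMod Q))

/-- the probability of two common zeros -/
noncomputable def pl {n : ℕ} (J : ℕ) (z z' : Fin n → ℤ) : ℝ :=
  (∑ j : ZMod Q, ∑ k : ZMod Q, rl Q J z z' j k) / (Q : ℝ) ^ 2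

/-- the contribution of the frequencies which are not local -/
noncomputable def pkl {n : ℕ} (J W T : ℕ) (z z' : Fin n → ℤ) : ℝ :=
  (∑ j : ZMod Q, ∑ k : ZMod Q, (1 - kap Q W T j) * rl Q J z z' j k) / (Q : ℝ) ^ 2

/-- the frequencies at which the correlation does not vanish -/
noncomputable def zl {n : ℕ} (J : ℕ) (z z' : Fin n → ℤ) : Finset (ZMod Q × ZMod Q) :=
  Finset.univ.filter fun q => ∀ p : Fin n,
    |(q.1 * (z p : ZMod Q) + q.2 * (z' p : ZMod Q)).valMinAbs| < (J : ℤ)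

/-- the integral vector which is close to `(q / Q) (z, z')` -/
def mq {n : ℕ} (z z' : Fin n → ℤ) (q : ZMod Q × ZMod Q) (p : Fin n) : ℤ :=
  (q.1.valMinAbs * z p + q.2.valMinAbs * z' p -
    (q.1 * (z p : ZMod Q) + q.2 * (z' p : ZMod Q)).valMinAbs) / Q

open Classical in
/-- the frequencies for which this integral vector is not in the plane of `z` and `z'` -/
noncomputable def zu {n : ℕ} (J : ℕ) (z z' : Fin n → ℤ) : Finset (ZMod Q × ZMod Q) :=
  (zl Q J z z').filter fun q => ¬ ∃ α β : ℚ, ∀ p, (mq Q z z' q p : ℚ) = α * z p + β * z' p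

end model

/-- the determinants of three vectors -/
def d3 {r : ℕ} (v w y : Fin r → ℤ) (i j k : Fin r) : ℤ :=
  v i * (w j * y k - w k * y j) - v j * (w i * y k - w k * y i) + v k * (w i * y j - w j * y i)

open Classical in
/-- the vectors `w` which are close to the line of `v` and to the plane of `v` and `y` -/
noncomputable def TW {r : ℕ} (c B D : ℕ) (v y : Fin r → ℤ) : Finset (Fin r → ℤ) :=
  (vb r (2 * c * B + 1)).filter fun w => (∀ i, |w i| ≤ c * |v i| + 1) ∧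
    (∃ i j, mnr v w i j ≠ 0) ∧ (∀ i j, |mnr v w i j| ≤ D) ∧ ∀ i j k, |d3 v w y i j k| ≤ D

/-! ### Local conditions -/

open Classical in
/-- the number of zeros modulo `M` with `c = 1` -/
noncomputable def aL {r : ℕ} (F : Fin 2 → Mon r → ℤ) (M : ℕ) [NeZero M]
    (L : Fin 2 → Fin (r + 1) → ZMod M) : ℕ :=
  (Finset.univ.filter fun u : Fin r → ZMod M =>
    ∀ i, qf (gg (cm (ZMod M) F) L i) (cv 1 u) = 0).card

open Classical in
/-- the classes `u` modulo `R` of the zeros `(c, u)` -/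
noncomputable def UL {r : ℕ} (F : Fin 2 → Mon r → ℤ) (c R : ℕ) (L : Fin 2 → Fin (r + 1) → ℤ) :
    Finset (Fin r → ℤ) :=
  (Fintype.piFinset fun _ => Finset.Ico (0 : ℤ) R).filter fun u =>
    (∀ i, (R : ℤ) ∣ qf (gg F L i) (cv (c : ℤ) u)) ∧
    ∀ p : ℕ, p.Prime → p ∣ R → p ∣ c → ∃ i, ¬ (p : ℤ) ∣ u i

/-- robust solubility at `p`, with `c = p ^ j` -/
def RLj {r : ℕ} (F : Fin 2 → Mon r → ℤ) (t p j : ℕ) (L : Fin 2 → Fin (r + 1) → ℤ) : Prop :=
  ∃ (τ : ℕ) (u : Fin r → ℤ), τ ≤ t ∧ (j ≠ 0 → ∃ i, ¬ (p : ℤ) ∣ u i) ∧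
    (∀ i, (p : ℤ) ^ (2 * τ) ∣ qf (gg F L i) (cv ((p : ℤ) ^ j) u)) ∧
    ∃ a b : Fin r, ¬ (p : ℤ) ^ τ ∣ jm (gg F L) (cv ((p : ℤ) ^ j) u) a.succ b.succ

/-- robust solubility at `p` -/
def RL {r : ℕ} (F : Fin 2 → Mon r → ℤ) (t p : ℕ) (L : Fin 2 → Fin (r + 1) → ℤ) : Prop :=
  ∃ j, j ≤ t ∧ RLj F t p j L

/-! ### The special pair `(x_0, x_1)` -/

open Classical in
/-- the pairs of linear forms which are congruent to `(x_0, x_1)` modulo `U` -/
noncomputable def sL (r U A : ℕ) : Finset (Fin 2 → Fin (r + 1) → ℤ) :=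
  (bL r A).filter fun L => ∀ i j, (U : ℤ) ∣ L i j - if j.val = i.val + 1 then 1 else 0

end Pool.Agent.H34.FS
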