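import Pool.Agent.H34.FS.Defs

/-!
# The Hasse principle for almost all intersections of two quadrics with a given hyperplane
# section: the rows of the board

Every row is a closed statement; the deductions take other rows as hypotheses.
-/

set_option autoImplicit false

open Finset Pool.Agent.H32.RQ Pool.Agent.H34.FQ

namespace Pool.Agent.H34.FS

/-! ### The family -/

/-- (GGE) values and derivatives of the forms of the family. -/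
def T_GGE : Prop :=
  ∀ (R : Type) [CommRing R] (r : ℕ) (f : Mon r → R) (l : Fin (r + 1) → R) (c : R) (x : Fin r → R),
    qf (gf f l) (cv c x) = qf f x + c * ∑ j, l j * cv c x j ∧
    (∀ k : Fin r, dq (gf f l) (cv c x) k.succ = dq f x k + c * l k.succ) ∧
    dq (gf f l) (cv c x) 0 = ∑ j, l j * cv c x j + c * l 0 ∧
    ∀ (R' : Type) [CommRing R'] (φ : R →+* R') (p : Mon (r + 1)),
      φ (gf f l p) = gf (fun p => φ (f p)) (fun j => φ (l j)) p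

/-- (GGU) the family contains all the pairs with the given section. -/
def T_GGU : Prop :=
  ∀ (r : ℕ) (F : Fin 2 → Mon r → ℤ) (G : Fin 2 → Mon (r + 1) → ℤ),
    (∀ i, ∀ x : Fin r → ℤ, qf (G i) (cv 0 x) = qf (F i) x) →
    ∃! L : Fin 2 → Fin (r + 1) → ℤ, G = gg F L

/-! ### A. The random model modulo `Q` -/

/-- (VRL) the second moment of the difference. -/
def T_VRL : Prop :=
  ∀ (r n Q J W T : ℕ) [NeZero Q] (S : Finset (Fin r → ℤ)) (z : (Fin r → ℤ) → Fin n → ℤ)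
    (t : Fin 2 → (Fin r → ℤ) → ℤ), 1 ≤ J → 2 * J ≤ Q → 1 ≤ W → W ∣ Q → T ∣ Q → 2 * W ≤ T →
    ∑ L : Fin 2 → Fin n → ZMod Q, wL Q J L * (nL Q S z t L - lL Q W T S z t L) ^ 2 ≤
      ((Q : ℝ) / J) ^ (2 * n) *
        ∑ x ∈ S, ∑ y ∈ S, 4 * pkl Q J W T (z x) (z y) * pl Q J (z x) (z y)

open Classical in
/-- (TRL) from the random model to the box. -/
def T_TRL : Prop :=
  ∀ (r n A J Q W T : ℕ) [NeZero Q] (S : Finset (Fin r → ℤ)) (z : (Fin r → ℤ) → Fin n → ℤ)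
    (t : Fin 2 → (Fin r → ℤ) → ℤ) (E : Finset (Fin 2 → Fin n → ℤ)) (M₀ : ℝ), 1 ≤ A → 1 ≤ J →
    Q = 2 * A * J → 1 ≤ W → W ∣ Q → T ∣ Q → 2 * W ≤ T → 2 * A < Q →
    (∀ L ∈ E, ∀ i j, |L i j| ≤ A) →
    (∀ L ∈ E, ∀ x ∈ S, ∀ i, |t i x + ∑ j, L i j * z x j| < Q) → 0 ≤ M₀ →
    (∀ L ∈ E, (∀ x ∈ S, ∃ i, t i x + ∑ j, L i j * z x j ≠ 0) ∧
      M₀ ≤ ((S.filter fun x => ∀ i, (W : ℤ) ∣ t i x + ∑ j, L i j * z x j ∧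
        2 * |t i x + ∑ j, L i j * z x j| ≤ T).card : ℝ)) →
    (E.card : ℝ) * ((4 / 10) ^ (2 * n) * (((W : ℝ) / T) ^ 2 * (4 / 10) ^ 2 * M₀) ^ 2) ≤
      ∑ L : Fin 2 → Fin n → ZMod Q, wL Q J L * (nL Q S z t L - lL Q W T S z t L) ^ 2

/-- (PKL) the trivial bounds. -/
def T_PKL : Prop :=
  ∀ (n Q J W T : ℕ) [NeZero Q] (z z' : Fin n → ℤ), 1 ≤ J → 1 ≤ W → W ∣ Q → T ∣ Q → 2 * W ≤ T →
    0 ≤ pkl Q J W T z z' ∧ pkl Q J W T z z' ≤ pl Q J z z' ∧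
    pl Q J z z' ≤ ((zl Q J z z').card : ℝ) / (Q : ℝ) ^ 2

/-- (PXL) the frequencies of the correlation for which the integral vector is in the plane. -/
def T_PXL : Prop :=
  ∀ (n B A J Q W : ℕ) [NeZero Q] (z z' : Fin n → ℤ), 1 ≤ A → Q = 2 * A * J → 1 ≤ W → W ∣ Q →
    Prm z → (∀ p, |z' p| ≤ B) → 1 ≤ dm z z' → dm z z' ≤ J →
    (((zl Q J z z' \ zu Q J z z').card : ℝ) * dm z z' ≤ 9 * gm z z' * (J : ℝ) ^ 2) ∧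
    (gm z z' ∣ W → ∀ q ∈ zl Q J z z' \ zu Q J z z', ∃ a m : ℤ,
      q.1 = ((m + a * ((Q / W : ℕ) : ℤ) : ℤ) : ZMod Q) ∧ |m| * dm z z' ≤ 2 * J * (B : ℤ))

/-- (ZTR) the trivial bound for the number of the frequencies. -/
def T_ZTR : Prop :=
  ∀ (r c J Q : ℕ) [NeZero Q] (x y : Fin r → ℤ), 1 ≤ c → c ≤ J → (∀ i, |x i - y i| ≤ J) → x ≠ y →
    (zl Q J (cv (c : ℤ) x) (cv (c : ℤ) y)).card ≤ 9 * J ^ 2

/-- (UNC) the number of the other frequencies. -/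
def T_UNC : Prop :=
  ∀ (r c B A J Q D : ℕ) [NeZero Q] (x y : Fin r → ℤ), 1 ≤ c → 1 ≤ A → B ≤ A → c ≤ B →
    2 * B ^ 2 ≤ J → Q = 2 * A * J → 6 * c * B ^ 2 ≤ D * A → x ≠ y → (∀ i, |x i| ≤ B) →
    (∀ i, |y i| ≤ B) →
    ((zu Q J (cv (c : ℤ) x) (cv (c : ℤ) y)).card : ℝ) * A ≤
      14 * (2 * c + 3) * (J : ℝ) ^ 2 * ((TW c B D (fun i => x i - y i) y).card : ℝ)

/-- (CNW) the number of the triples `(v, w, y)`. -/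
def T_CNW : Prop :=
  ∀ r c : ℕ, 3 ≤ r → ∃ C : ℝ, 0 < C ∧ ∀ B D : ℕ, 1 ≤ B → 1 ≤ D →
    ∑ v ∈ vb r (2 * B), ∑ y ∈ vb r B, ((TW c B D v y).card : ℝ) ≤
      C * (B : ℝ) ^ 4 * (D : ℝ) ^ (2 * r - 4)

/-- (DIL) the diagonal. -/
def T_DIL : Prop :=
  ∀ (n K B A J Q : ℕ) [NeZero Q] (z : Fin n → ℤ), 1 ≤ B → B ≤ A → B ≤ J → Q = 2 * A * J →
    Prm z → (∀ p, |z p| ≤ B) → (∃ p, (B : ℤ) ≤ K * |z p|) →
    pl Q J z z * (2 * A * B) ≤ 3 * K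

/-- (PBL) the bound for two different points. -/
def T_PBL : Prop :=
  ∀ r c : ℕ, ∃ C : ℝ, 0 < C ∧ ∀ (B A J Q W T D : ℕ) [NeZero Q] (x y : Fin r → ℤ), 1 ≤ c →
    1 ≤ A → B ≤ A → c ≤ B → 2 * B ^ 2 ≤ J → Q = 2 * A * J → 1 ≤ W → W ∣ Q → T ∣ Q → 2 * W ≤ T →
    6 * c * B ^ 2 ≤ D * A → Prm (cv (c : ℤ) x) → x ≠ y → (∀ i, |x i| ≤ B) → (∀ i, |y i| ≤ B) →
    pkl Q J W T (cv (c : ℤ) x) (cv (c : ℤ) y) * pl Q J (cv (c : ℤ) x) (cv (c : ℤ) y) ≤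
      C * (((gm (cv (c : ℤ) x) (cv (c : ℤ) y) : ℝ) /
        ((A : ℝ) ^ 2 * dm (cv (c : ℤ) x) (cv (c : ℤ) y))) ^ 2 *
        (if gm (cv (c : ℤ) x) (cv (c : ℤ) y) ∣ W then
          (B : ℝ) * T / (A * dm (cv (c : ℤ) x) (cv (c : ℤ) y)) else 1) +
        ((TW c B D (fun i => x i - y i) y).card : ℝ) / (A : ℝ) ^ 5)

/-- (SML) the sum over the pairs. -/
def T_SML : Prop :=
  ∀ s : ℕ, 5 ≤ s → ∃ C : ℝ, 0 < C ∧ ∀ (ι : Type) (P : Finset ι) (G D : ι → ℕ) (M W w : ℕ)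
    (C₀ κ : ℝ), 0 ≤ C₀ → 0 ≤ κ → 1 ≤ w → (∀ g, 1 ≤ g → g ≤ w → g ∣ W) →
    (∀ i ∈ P, 1 ≤ G i ∧ G i ≤ D i ∧ D i ≤ M) →
    (∀ g D' : ℕ, 1 ≤ g → ((P.filter fun i => G i = g ∧ D i ≤ D').card : ℝ) ≤
      C₀ * ((D' : ℝ) / g) ^ (s - 1)) →
    ∑ i ∈ P, (G i : ℝ) ^ 2 / (D i : ℝ) ^ 2 * (if G i ∣ W then κ / D i else 1) ≤
      C * C₀ * ((M : ℝ) ^ (s - 3) / w + κ * (M : ℝ) ^ (s - 4))

open Classical in
/-- (PR2) the number of the pairs of parallel vectors. -/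
def T_PR2 : Prop :=
  ∀ r : ℕ, 3 ≤ r → ∃ C : ℝ, 0 < C ∧ ∀ B : ℕ, 1 ≤ B →
    (((vb r B ×ˢ vb r B).filter fun q => dm q.1 q.2 = 0).card : ℝ) ≤ C * (B : ℝ) ^ r

/-- (SEL) the second moment. -/
def T_SEL : Prop :=
  ∀ r c : ℕ, 5 ≤ r → 1 ≤ c → ∃ C : ℝ, 0 < C ∧
    ∀ (F : Fin 2 → Mon r → ℤ) (K B A J Q W T w D : ℕ) [NeZero Q], 1 ≤ A → B ≤ A → c ≤ B →
    2 * B ^ 2 ≤ J → Q = 2 * A * J → 1 ≤ W → W ∣ Q → T ∣ Q → 2 * W ≤ T → 1 ≤ w →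
    (∀ g, 1 ≤ g → g ≤ w → g ∣ W) → 1 ≤ D → 6 * c * B ^ 2 ≤ D * A →
    ∑ x ∈ PT F c K B, ∑ y ∈ PT F c K B,
      4 * pkl Q J W T (cv (c : ℤ) x) (cv (c : ℤ) y) * pl Q J (cv (c : ℤ) x) (cv (c : ℤ) y) ≤
      C * (((B : ℝ) ^ (r - 2) / (A : ℝ) ^ 2) ^ 2 * (1 / w + T / (A * B)) +
        (B : ℝ) ^ 4 * (D : ℝ) ^ (2 * r - 4) / (A : ℝ) ^ 5 + (B : ℝ) ^ r / (A : ℝ) ^ 4 +
        (K : ℝ) ^ 2 * (B : ℝ) ^ (r - 2) / (A : ℝ) ^ 2)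

/-! ### B. The primes `> w₀` -/

/-- (AL2) the pairs of values modulo `M`. -/
def T_AL2 : Prop :=
  ∀ (r M : ℕ) [NeZero M] (u u' : Fin r → ZMod M) (t t' : ZMod M),
    (Finset.univ.filter fun l : Fin (r + 1) → ZMod M =>
      t + ∑ j, l j * cv 1 u j = 0 ∧ t' + ∑ j, l j * cv 1 u' j = 0).card * M ^ 2 ≤
      M ^ (r + 1) * (Finset.univ.filter fun a : ZMod M => ∀ i, a * (u i - u' i) = 0).card

/-- (AL3) the sum of the correlations. -/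
def T_AL3 : Prop :=
  ∀ (r M : ℕ) [NeZero M] (u : Fin r → ZMod M),
    ∑ u' : Fin r → ZMod M,
      ((Finset.univ.filter fun a : ZMod M => ∀ i, a * (u i - u' i) = 0).card : ℝ) ^ 2 ≤
      (M : ℝ) ^ r * ∑ h ∈ M.divisors, (h : ℝ) ^ 2 / (h : ℝ) ^ r

open Classical in
/-- (AL1) for most pairs the density modulo `M` is at least one half. -/
def T_AL1 : Prop :=
  ∀ r : ℕ, 5 ≤ r → ∃ C : ℝ, 0 < C ∧ ∀ (F : Fin 2 → Mon r → ℤ) (M w₀ : ℕ) [NeZero M], 1 ≤ w₀ →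
    (∀ p : ℕ, p.Prime → p ∣ M → w₀ < p) →
    ((Finset.univ.filter fun L : Fin 2 → Fin (r + 1) → ZMod M =>
      2 * aL F M L < M ^ (r - 2)).card : ℝ) * (w₀ : ℝ) ^ 2 ≤ C * (M : ℝ) ^ (2 * (r + 1))

/-- (TBL) from the residues to the box. -/
def T_TBL : Prop :=
  ∀ r A : ℕ, (bL r A).card = (2 * A + 1) ^ (2 * (r + 1)) ∧
    ∀ (M : ℕ) [NeZero M] (E : Finset (Fin 2 → Fin (r + 1) → ZMod M)), M ≤ 2 * A + 1 →
    ((bL r A).filter fun L => cL (ZMod M) L ∈ E).card * M ^ (2 * (r + 1)) ≤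
      2 ^ (2 * (r + 1)) * (2 * A + 1) ^ (2 * (r + 1)) * E.card

/-! ### C. The primes `≤ w₀` -/

/-- (NUL) the Nullstellensatz for the singular points of the section. -/
def T_NUL : Prop :=
  ∀ (r : ℕ) (F : Fin 2 → Mon r → ℤ), Sm F → ∃ N₀ : ℕ, 1 ≤ N₀ ∧
    ∀ (p k : ℕ) (x : Fin r → ℤ), p.Prime → (∃ i, ¬ (p : ℤ) ∣ x i) →
    (∀ i, (p : ℤ) ^ k ∣ qf (F i) x) → (∀ a b, (p : ℤ) ^ k ∣ jm F x a b) → p ^ k ∣ N₀

open Classical in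
/-- (PML) the pairs of linear forms which are bad modulo a prime power. -/
def T_PML : Prop :=
  ∀ (r : ℕ) (F : Fin 2 → Mon r → ℤ) (p : ℕ), 1 ≤ r → Sm F → p.Prime → ∃ C : ℝ, 0 < C ∧
    ∀ (t : ℕ) [NeZero (p ^ t)],
    ((Finset.univ.filter fun L : Fin 2 → Fin (r + 1) → ZMod (p ^ t) =>
      ∃ z : Fin (r + 1) → ZMod (p ^ t), (∃ i, IsUnit (z i)) ∧
        (∀ i, qf (gg (cm (ZMod (p ^ t)) F) L i) z = 0) ∧
        ∀ a b, jm (gg (cm (ZMod (p ^ t)) F) L) z a b = 0).card : ℝ) * (p : ℝ) ^ t ≤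
      C * ((p : ℝ) ^ t) ^ (2 * (r + 1))

open Classical in
/-- (PNL) the pairs of linear forms which are bad at `p` are rare. -/
def T_PNL : Prop :=
  ∀ (r : ℕ) (F : Fin 2 → Mon r → ℤ) (p : ℕ), 1 ≤ r → Sm F → p.Prime → ∃ C : ℝ, 0 < C ∧
    ∀ t A : ℕ, p ^ t ≤ 2 * A + 1 →
    (((bL r A).filter fun L => NP t p (gg F L)).card : ℝ) * (p : ℝ) ^ t ≤
      C * (2 * (A : ℝ) + 1) ^ (2 * (r + 1))

/-- (MVL) a robust point outside the section. -/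
def T_MVL : Prop :=
  ∀ (r : ℕ) (F : Fin 2 → Mon r → ℤ) (p : ℕ) [Fact p.Prime], Sm F → ∃ t₀ : ℕ,
    ∀ (t : ℕ) (L : Fin 2 → Fin (r + 1) → ℤ),
    (∃ z : Fin (r + 1) → ℚ_[p], z ≠ 0 ∧ ∀ i, qf (cm ℚ_[p] (gg F L) i) z = 0) →
    ¬ NP t p (gg F L) → RL F (t + t₀) p L

open Classical in
/-- (LPL) the pairs with a `p`-adic zero which are not robust at `p` are rare. -/
def T_LPL : Prop :=
  ∀ (r : ℕ) (F : Fin 2 → Mon r → ℤ) (p : ℕ) [Fact p.Prime] (ε : ℝ), 1 ≤ r → Sm F → 0 < ε →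
    ∃ t₁ : ℕ, ∀ t : ℕ, t₁ ≤ t → ∃ A₀ : ℕ, ∀ A : ℕ, A₀ ≤ A →
    (((bL r A).filter fun L => (∃ z : Fin (r + 1) → ℚ_[p], z ≠ 0 ∧
      ∀ i, qf (cm ℚ_[p] (gg F L) i) z = 0) ∧ ¬ RL F t p L).card : ℝ) ≤
      ε * (2 * (A : ℝ) + 1) ^ (2 * (r + 1))

/-- (HCL) the local classes at a prime `≤ w₀`. -/
def T_HCL : Prop :=
  ∀ (r : ℕ) (F : Fin 2 → Mon r → ℤ) (L : Fin 2 → Fin (r + 1) → ℤ) (p t j k m' : ℕ), p.Prime →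
    ¬ p ∣ m' → 2 * t ≤ k → RLj F t p j L →
    p ^ ((k - 2 * t) * (r - 2)) ≤ (UL F (p ^ j * m') (p ^ k) L).card

/-- (CRL) the local classes are multiplicative. -/
def T_CRL : Prop :=
  ∀ (r : ℕ) (F : Fin 2 → Mon r → ℤ) (L : Fin 2 → Fin (r + 1) → ℤ) (c M M' : ℕ), 1 ≤ M →
    1 ≤ M' → Nat.Coprime M M' →
    (UL F c (M * M') L).card = (UL F c M L).card * (UL F c M' L).card

/-- (UW1) the local classes at the primes `> w₀`. -/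
def T_UW1 : Prop :=
  ∀ (r : ℕ) (F : Fin 2 → Mon r → ℤ) (L : Fin 2 → Fin (r + 1) → ℤ) (c M : ℕ) [NeZero M],
    Nat.Coprime c M → (UL F c M L).card = aL F M (cL (ZMod M) L)

/-- (ULB) a lower bound for the number of classes. -/
def T_ULB : Prop :=
  ∀ (r : ℕ) (F : Fin 2 → Mon r → ℤ) (t w₀ : ℕ), 2 ≤ r → ∃ η : ℝ, 0 < η ∧
    ∀ (W₀ W₁ : ℕ) [NeZero W₀] [NeZero W₁] (L : Fin 2 → Fin (r + 1) → ℤ),
    (∀ p : ℕ, p.Prime → p ∣ W₀ → p ≤ w₀) → (∀ p : ℕ, p.Prime → p ≤ w₀ → p ^ (2 * t) ∣ W₀) →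
    (∀ p : ℕ, p.Prime → p ∣ W₁ → w₀ < p) → (∀ p : ℕ, p.Prime → p ≤ w₀ → RL F t p L) →
    W₁ ^ (r - 2) ≤ 2 * aL F W₁ (cL (ZMod W₁) L) →
    ∃ m : ℕ, 1 ≤ m ∧ m ≤ (w₀.factorial) ^ t ∧
      η * ((m * (W₀ * W₁) : ℕ) : ℝ) ^ r / ((W₀ * W₁ : ℕ) : ℝ) ^ 2 ≤
        ((UL F m (m * (W₀ * W₁)) L).card : ℝ)

/-! ### D. Many local zeros -/

open Classical in
/-- (PGH) two linear forms are small at many vectors. -/
def T_PGH : Prop :=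
  ∀ (r N : ℕ) (l : Fin 2 → Fin r → ℤ) (H Y : ℝ), 0 < Y → Y ≤ H →
    (∀ i, (∑ j, |(l i j : ℝ)|) * N ≤ H) →
    (Y / (3 * H)) ^ 2 * ((N : ℝ) + 1) ^ r ≤
      (((vb r N).filter fun x => ∀ i, |((∑ j, l i j * x j : ℤ) : ℝ)| ≤ Y).card : ℝ)

open Classical in
/-- (LOL) the lower bound for the number of local zeros. -/
def T_LOL : Prop :=
  ∀ (r : ℕ) (F : Fin 2 → Mon r → ℤ) (c : ℕ) (η : ℝ), 1 ≤ r → 1 ≤ c → 0 < η → ∃ c₃ : ℝ, 0 < c₃ ∧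
    ∀ δ : ℝ, 0 < δ → δ ≤ 1 → ∃ K : ℕ, ∀ W : ℕ, 1 ≤ W → ∃ B₀ : ℕ,
    ∀ (B A : ℕ) (L : Fin 2 → Fin (r + 1) → ℤ), B₀ ≤ B → B₀ * B ≤ A → L ∈ bL r A →
    η * ((c * W : ℕ) : ℝ) ^ r / (W : ℝ) ^ 2 ≤ ((UL F c (c * W) L).card : ℝ) →
    c₃ * δ ^ 2 * (B : ℝ) ^ r / (W : ℝ) ^ 2 ≤
      (((PT F c K B).filter fun x => ∀ i, (W : ℤ) ∣ vi F c L i x ∧
        |((vi F c L i x : ℤ) : ℝ)| ≤ δ * A * B).card : ℝ)

open Classical in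
/-- (MNL) almost all robust pairs have a small zero. -/
def T_MNL : Prop :=
  ∀ (r : ℕ) (F : Fin 2 → Mon r → ℤ) (t w₀ : ℕ), 5 ≤ r → ∀ ε : ℝ, 0 < ε →
    ∃ W₁ K A₀ : ℕ, ∃ _ : NeZero W₁, (∀ p : ℕ, p.Prime → p ∣ W₁ → w₀ < p) ∧ ∀ A : ℕ, A₀ ≤ A →
    (((bL r A).filter fun L => (∀ p : ℕ, p.Prime → p ≤ w₀ → RL F t p L) ∧
      W₁ ^ (r - 2) ≤ 2 * aL F W₁ (cL (ZMod W₁) L) ∧ ¬ SZF F K A L).card : ℝ) ≤
      ε * (2 * (A : ℝ) + 1) ^ (2 * (r + 1))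

open Classical in
/-- (HPL) almost all locally soluble pairs have a small zero. -/
def T_HPL : Prop :=
  ∀ (r : ℕ) (F : Fin 2 → Mon r → ℤ), 5 ≤ r → Sm F → ∀ ε : ℝ, 0 < ε → ∃ K A₀ : ℕ, ∀ A : ℕ,
    A₀ ≤ A → (((bL r A).filter fun L => LP (gg F L) ∧ ¬ SZF F K A L).card : ℝ) ≤
      ε * (2 * (A : ℝ) + 1) ^ (2 * (r + 1))

/-! ### E. A positive proportion, smoothness and the end -/

/-- (SPI) the pairs of linear forms congruent to the special pair are robust. -/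
def T_SPI : Prop :=
  ∀ (r : ℕ) (F : Fin 2 → Mon r → ℤ) (U A p : ℕ) (L : Fin 2 → Fin (r + 1) → ℤ), 2 ≤ r →
    L ∈ sL r U A → p.Prime → p ^ 2 ∣ U → RL F 1 p L

open Classical in
/-- (SPC) the number of the pairs of linear forms congruent to the special pair. -/
def T_SPC : Prop :=
  ∀ r U : ℕ, 1 ≤ U → (∃ A₀ : ℕ, ∀ A : ℕ, A₀ ≤ A →
    ((A : ℝ) / U) ^ (2 * (r + 1)) ≤ ((sL r U A).card : ℝ)) ∧
    ∀ (M : ℕ) [NeZero M], Nat.Coprime U M → ∃ A₀ : ℕ, ∀ A : ℕ, A₀ ≤ A →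
      ∀ E : Finset (Fin 2 → Fin (r + 1) → ZMod M),
      (((sL r U A).filter fun L => cL (ZMod M) L ∈ E).card : ℝ) * (M : ℝ) ^ (2 * (r + 1)) ≤
        (4 * A / U) ^ (2 * (r + 1)) * E.card

open Classical in
/-- (POL) a positive proportion of the pairs has a zero. -/
def T_POL : Prop :=
  ∀ (r : ℕ) (F : Fin 2 → Mon r → ℤ), 5 ≤ r → ∃ δ : ℝ, 0 < δ ∧ ∃ A₀ : ℕ, ∀ A : ℕ, A₀ ≤ A →
    δ * (2 * (A : ℝ) + 1) ^ (2 * (r + 1)) ≤ (((bL r A).filter fun L => QZ (gg F L)).card : ℝ)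

/-- (SQR) a double root of a pencil of symmetric matrices. -/
def T_SQR : Prop :=
  ∀ (K : Type) [Field K] [IsAlgClosed K] (s : ℕ) (M H : Matrix (Fin s) (Fin s) K),
    (∀ i j, M i j = M j i) → (∀ i j, H i j = H j i) →
    (Polynomial.X : Polynomial K) ^ 2 ∣
      ((Polynomial.X : Polynomial K) • H.map Polynomial.C + M.map Polynomial.C).det →
    ∃ x : Fin s → K, x ≠ 0 ∧ (∀ i, ∑ j, M i j * x j = 0) ∧ ∑ i, ∑ j, x i * H i j * x j = 0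

/-- (DSV) the pencil of a smooth pair is separable. -/
def T_DSV : Prop :=
  ∀ (r : ℕ) (F : Fin 2 → Mon r → ℤ), Sm F → ∃ k : ℤ,
    (Pool.Agent.H13.RQ.Hs (fun p => (F 1 p : ℚ) + k * F 0 p)).det ≠ 0 ∧
    (Pool.Agent.H13.RQ.pen ![fun p => (F 0 p : ℚ), fun p => (F 1 p : ℚ) + k * F 0 p]).det.Separable

/-- (SPL) a polynomial condition for smoothness. -/
def T_SPL : Prop :=
  ∀ (r : ℕ) (F : Fin 2 → Mon r → ℤ), 1 ≤ r → Sm F →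
    ∃ P : MvPolynomial (Fin 2 × Fin (r + 1)) ℤ, P ≠ 0 ∧ ∀ L : Fin 2 → Fin (r + 1) → ℤ,
      MvPolynomial.eval (fun q : Fin 2 × Fin (r + 1) => L q.1 q.2) P ≠ 0 → Sm (gg F L)

open Classical in
/-- (SZ2) the zeros of a polynomial in the box are rare. -/
def T_SZ2 : Prop :=
  ∀ (r : ℕ) (P : MvPolynomial (Fin 2 × Fin (r + 1)) ℤ), P ≠ 0 → ∀ ε : ℝ, 0 < ε → ∃ A₀ : ℕ,
    ∀ A : ℕ, A₀ ≤ A → (((bL r A).filter fun L =>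
      MvPolynomial.eval (fun q : Fin 2 × Fin (r + 1) => L q.1 q.2) P = 0).card : ℝ) ≤
      ε * (2 * (A : ℝ) + 1) ^ (2 * (r + 1))

open Classical in
/-- (FIN) the final statement. -/
def T_FIN : Prop :=
  ∀ (r : ℕ) (F : Fin 2 → Mon r → ℤ), 5 ≤ r → Sm F →
    Filter.Tendsto (fun A : ℕ => (((bL r A).filter fun L => ¬ Sm (gg F L)).card : ℝ) /
      (bL r A).card) Filter.atTop (nhds 0) ∧
    (∃ δ : ℝ, 0 < δ ∧ ∃ A₀ : ℕ, ∀ A : ℕ, A₀ ≤ A → δ * ((bL r A).card : ℝ) ≤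
      (((bL r A).filter fun L => Sm (gg F L) ∧ QZ (gg F L)).card : ℝ)) ∧
    Filter.Tendsto (fun A : ℕ =>
      (((bL r A).filter fun L => Sm (gg F L) ∧ LP (gg F L) ∧ QZ (gg F L)).card : ℝ) /
      (((bL r A).filter fun L => Sm (gg F L) ∧ LP (gg F L)).card : ℝ)) Filter.atTop (nhds 1) ∧
    (LP F → Filter.Tendsto (fun A : ℕ => (((bL r A).filter fun L =>
      Sm (gg F L) ∧ QZ (gg F L)).card : ℝ) / (bL r A).card) Filter.atTop (nhds 1)) ∧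
    ∀ ε : ℝ, 0 < ε → ∃ K A₀ : ℕ, ∀ A : ℕ, A₀ ≤ A →
      (((bL r A).filter fun L => LP (gg F L) ∧ ¬ SZF F K A L).card : ℝ) ≤
        ε * ((bL r A).card : ℝ)

end Pool.Agent.H34.FS
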